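import Pool.Agent.Helper48.OD.St

set_option autoImplicit false

namespace Pool.Agent.Helper41.OD

open Pool.Agent.Helper43.GD Pool.Agent.Helper48.OD

/-- counting: a finite 2-group of units of a field of characteristic not two is not stable under
`μ ↦ (1 - μ v) / (1 - v)` -/
private lemma mxp_count {K : Type} [Field K] [Finite K] (h2 : (2 : K) ≠ 0) (M : Subgroup Kˣ)
    (hM : IsPGroup 2 M) (hneg : (-1 : Kˣ) ∈ M) (v : K) (hv : v ≠ 0)
    (h : ∀ μ ∈ M, ∃ ν ∈ M, (ν : K) * (1 - v) = 1 - (μ : K) * v) : False := by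
  classical
  have := Fintype.ofFinite M
  have hex : ∀ μ : M, ∃ ν : M, ((ν : Kˣ) : K) * (1 - v) = 1 - ((μ : Kˣ) : K) * v := by
    intro μ
    obtain ⟨ν, hν, e⟩ := h μ.1 μ.2
    exact ⟨⟨ν, hν⟩, e⟩
  choose f hf using hex
  have hinj : Function.Injective f := by
    intro μ ν hμν
    have h1 := hf μ
    rw [hμν, hf ν] at h1
    have h3 : ((μ : Kˣ) : K) * v = ((ν : Kˣ) : K) * v := by linear_combination h1
    exact Subtype.ext (Units.ext (mul_right_cancel₀ hv h3))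
  have hbij : Function.Bijective f := Finite.injective_iff_bijective.1 hinj
  have hs1 : ∑ μ : M, ((f μ : Kˣ) : K) = ∑ μ : M, ((μ : Kˣ) : K) :=
    hbij.sum_comp (fun μ : M => ((μ : Kˣ) : K))
  have hs0 : ∑ μ : M, ((μ : Kˣ) : K) = 0 := by
    have h3 := Equiv.sum_comp (Equiv.mulLeft (⟨-1, hneg⟩ : M)) (fun μ : M => ((μ : Kˣ) : K))
    have h4 : ∀ μ : M, (((Equiv.mulLeft (⟨-1, hneg⟩ : M)) μ : Kˣ) : K) = -((μ : Kˣ) : K) := by
      intro μ
      simp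
    rw [Finset.sum_congr rfl (fun μ _ => h4 μ), Finset.sum_neg_distrib] at h3
    have h5 : (2 : K) * ∑ μ : M, ((μ : Kˣ) : K) = 0 := by linear_combination -h3
    exact (mul_eq_zero.1 h5).resolve_left h2
  have hs2 : (∑ μ : M, ((f μ : Kˣ) : K)) * (1 - v) =
      (Fintype.card M : K) - (∑ μ : M, ((μ : Kˣ) : K)) * v := by
    rw [Finset.sum_mul, Finset.sum_congr rfl (fun μ _ => hf μ), Finset.sum_sub_distrib,
      Finset.sum_const, Finset.card_univ, nsmul_eq_mul, mul_one, Finset.sum_mul]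
  rw [hs1, hs0, zero_mul, zero_mul, sub_zero] at hs2
  have : Fact (Nat.Prime 2) := ⟨Nat.prime_two⟩
  obtain ⟨n, hn⟩ := IsPGroup.iff_card.1 hM
  rw [Nat.card_eq_fintype_card] at hn
  rw [hn, Nat.cast_pow, Nat.cast_ofNat] at hs2
  exact pow_ne_zero n h2 hs2.symm

theorem hMXP (hUP : StUP) : StMXP := by
  intro L A _ _ Q v hv P hP h2
  by_contra hcon
  push Not at hcon
  have hfin := hv.fin
  let _ : Field (L ⧸ P) := Ideal.Quotient.field P
  let π : L →+* L ⧸ P := Ideal.Quotient.mk P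
  have hfinK : Finite (L ⧸ P) := Finite.of_surjective π Ideal.Quotient.mk_surjective
  let ρ : Lˣ →* (L ⧸ P)ˣ := Units.map (π : L →* L ⧸ P)
  have hρ : ∀ y : Lˣ, ((ρ y : (L ⧸ P)ˣ) : L ⧸ P) = π (y : L) := fun y => rfl
  let M' : Subgroup Lˣ :=
    { carrier := {ζ | ζ ∈ Q.U ∧ Tw ζ}
      mul_mem' := fun ha hb => ⟨Q.U.mul_mem ha.1 hb.1, ha.2.mul hb.2⟩
      one_mem' := ⟨Q.U.one_mem, Tw.one⟩
      inv_mem' := fun ha => ⟨Q.U.inv_mem ha.1, ha.2.inv⟩ }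
  have hM' : ∀ ζ : Lˣ, ζ ∈ M' ↔ ζ ∈ Q.U ∧ Tw ζ := fun ζ => Iff.rfl
  have h2K : (2 : L ⧸ P) ≠ 0 := by
    intro h
    apply h2
    rw [← Ideal.Quotient.eq_zero_iff_mem]
    rw [map_ofNat]
    exact h
  refine mxp_count h2K (M'.map ρ) ?_ ?_ (π (v : L)) ?_ ?_
  · rintro ⟨μ, hμ⟩
    obtain ⟨ζ, hζ, rfl⟩ := Subgroup.mem_map.1 hμ
    obtain ⟨s, hs⟩ := ((hM' ζ).1 hζ).2
    refine ⟨s, Subtype.ext ?_⟩
    change (ρ ζ) ^ (2 ^ s) = 1
    rw [← map_pow, hs, map_one]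
  · refine Subgroup.mem_map.2 ⟨-1, (hM' _).2 ⟨Q.neg, Tw.neg_one⟩, ?_⟩
    apply Units.ext
    rw [hρ, Units.val_neg, Units.val_one, map_neg, map_one, Units.val_neg, Units.val_one]
  · exact (ρ v).ne_zero
  · intro μ hμ
    obtain ⟨ζ, hζ, rfl⟩ := Subgroup.mem_map.1 hμ
    rw [hM'] at hζ
    obtain ⟨D, s, hD, hDs⟩ := hcon ζ hζ.1 hζ.2
    have hgd := hUP.2 L A Q v ζ hv hζ.1 hζ.2
    have hDU : D ∈ Q.U := by
      rw [← in_iff Q]
      apply in_cancel Q hv.gd.2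
      have e : (1 - (v : L)) * (D : L) = 1 - ((ζ * v : Lˣ) : L) := by
        rw [Units.val_mul, mul_comm]; exact hD
      rw [e]
      exact hgd.2
    obtain ⟨i, j, hi, hj, hij⟩ := decomp D
    refine ⟨ρ (D ^ i), Subgroup.mem_map.2 ⟨D ^ i, (hM' _).2 ⟨Q.U.pow_mem hDU i, hi⟩, rfl⟩, ?_⟩
    have h1 : ρ D ^ (2 ^ s) = 1 := by
      apply Units.ext
      rw [← map_pow, hρ, Units.val_one, Units.val_pow_eq_pow_val]
      have h3 := Ideal.Quotient.eq_zero_iff_mem.2 hDs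
      rw [map_sub, map_one, sub_eq_zero] at h3
      exact h3
    have h4 : ρ (D ^ j) = 1 := by
      obtain ⟨n, hn⟩ := hj.eq_pow s
      rw [← hn, map_pow, map_pow, map_pow, ← pow_mul (ρ D) j, mul_comm j, pow_mul, h1, one_pow,
        one_pow]
    have h5 : ρ (D ^ i) = ρ D := by
      have h7 := congrArg ρ hij
      rw [map_mul, h4, mul_one] at h7
      exact h7
    rw [h5, hρ, hρ]
    have h6 := congrArg π hD
    rw [map_mul, map_sub, map_sub, map_one, map_mul] at h6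
    exact h6

end Pool.Agent.Helper41.OD
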